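import Mathlib
import Pool.Agent.Helper53_TDG.Defs

/-!
# Total domination game, bound 2/3: statements of the modules (everything except the facts on bad
graphs, the last case `A = ∅` and the dual reduction)

All numbers are doubled, `sf = 2 f`, `ph = 2 φ`, `F2 = 2 F`; sets `R, T, Z, A, P, B` are sets of
ordinary targets, i.e. subsets of `U \ Hv`.
-/

set_option autoImplicit false
set_option linter.unusedSectionVars false

namespace Pool.Agent.TDG

open Finset Helper77.TDG

section Defs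

variable {V X : Type*} [Fintype V] [DecidableEq V] [DecidableEq X]

/-- The tokens of the cluster `C` in the position `U`: the targets outside `C` of the players
which meet `C`. -/
def tok (N : V → Finset X) (U C : Finset X) : Finset X :=
  ((alive N C).biUnion fun v => N v ∩ U) \ C

/-- `A` is an inclusion-maximal `G`-optimal set. -/
def MaxOpt (N : V → Finset X) (Hv U A : Finset X) : Prop :=
  A ⊆ U \ Hv ∧ GG N Hv U A = Gam N Hv U ∧ ∀ R, A ⊂ R → R ⊆ U \ Hv → Gam N Hv U < GG N Hv U R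

open Classical in
/-- The clusters closed by `R` which are hit by `T` and all whose tokens lie in `T'`. -/
noncomputable def hitc (N : V → Finset X) (Hv U R T T' : Finset X) : Finset (Finset X) :=
  (bc N Hv U R).filter fun C => (T ∩ C).Nonempty ∧ tok N U C ⊆ T'

open Classical in
/-- The clusters closed by `A` which are closed by `T₁ ∪ T₂` but neither by `T₁` nor by `T₂`. -/
noncomputable def newc (N : V → Finset X) (Hv U A T₁ T₂ : Finset X) : Finset (Finset X) :=
  (bc N Hv U A).filter fun C =>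
    tok N U C ⊆ T₁ ∪ T₂ ∧ ¬ tok N U C ⊆ T₁ ∧ ¬ tok N U C ⊆ T₂

open Classical in
/-- The components `K` of `U \ R` hit by `T` which are bad or have `f_K(T ∩ K) ≤ 0`. -/
noncomputable def KO (N : V → Finset X) (Hv U R T : Finset X) : Finset (Finset X) :=
  (comps N (U \ R)).filter fun K => (T ∩ K).Nonempty ∧ (Bad N Hv K ∨ sf N Hv K (T ∩ K) ≤ 0)

/-- `T` without its parts in the components of `KO`. -/
noncomputable def Tt (N : V → Finset X) (Hv U R T : Finset X) : Finset X :=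
  T \ (KO N Hv U R T).biUnion id

open Classical in
/-- The clusters closed by `T` which are hit by `R`. -/
noncomputable def HH (N : V → Finset X) (Hv U R T : Finset X) : Finset (Finset X) :=
  (bc N Hv U T).filter fun D => (R ∩ D).Nonempty

/-- `R ∪ T` without the clusters closed by `T` which are hit by `R`. -/
noncomputable def Rt (N : V → Finset X) (Hv U R T : Finset X) : Finset X :=
  (R ∪ T) \ (HH N Hv U R T).biUnion id

/-- The standing assumptions in the induction step: `U` is connected and not bad, the main theorem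
holds for all smaller positions, extraction does not help, `A` is a maximal optimal set. -/
structure Ctx (N : V → Finset X) (Hv U A : Finset X) : Prop where
  hW : World N Hv
  hc : Conn N U
  hb : ¬ Bad N Hv U
  ih : ∀ W, W ⊂ U → (ns N W : ℤ) ≤ MM N Hv W
  hE : ∀ Z, Z ⊆ U \ Hv → Z.Nonempty → MM N Hv U < 2 * (Z.card : ℤ) + MM N Hv (U \ Z)
  hA : MaxOpt N Hv U A

end Defs

/-! ### Bad graphs: the two facts used everywhere -/

/-- Lemma P: a connected position without heavy targets whose players have at most two targets,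
one of them exactly one. -/
def LPStmt : Prop :=
  ∀ (V X : Type) [Fintype V] [DecidableEq V] [DecidableEq X] (N : V → Finset X) (Hv K : Finset X),
    World N Hv → Conn N K → Disjoint K Hv → (∀ v, (N v ∩ K).card ≤ 2) →
    (∃ v, (N v ∩ K).card = 1) → 3 * ns N K ≤ 2 * Phi N Hv K

/-- A nonempty hit set `B` in a bad graph costs at least 2, and `φ(B) ≥ 1`; nothing bad is left. -/
def BFStmt : Prop :=
  ∀ (V X : Type) [Fintype V] [DecidableEq V] [DecidableEq X] (N : V → Finset X) (Hv C B : Finset X),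
    World N Hv → Bad N Hv C → B ⊆ C → B.Nonempty →
    gv N Hv C + 2 ≤ GG N Hv C B ∧ 2 ≤ ph N C B ∧ bc N Hv C B = ∅

/-- A connected graph position with `Φ = 5 mod 6` which is not bad. -/
def NBStmt : Prop :=
  ∀ (V X : Type) [Fintype V] [DecidableEq V] [DecidableEq X] (N : V → Finset X) (Hv K : Finset X),
    World N Hv → Conn N K → IsGraph N Hv K →
    (Phi N Hv K % 6 = 5 → 3 * ns N K ≤ 2 * (Phi N Hv K + 1)) ∧
    (Phi N Hv K % 6 = 2 → 3 * ns N K ≤ 2 * Phi N Hv K)

/-! ### Formulas -/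

/-- `3 G(R) = 2 Φ - 2 sf(R) - 2ρ(R)`: upper bound form with `ρ ≥ 0`, on a position `U`. -/
def GFStmt : Prop :=
  ∀ (V X : Type) [Fintype V] [DecidableEq V] [DecidableEq X] (N : V → Finset X)
    (Hv U R : Finset X), World N Hv → R ⊆ U \ Hv →
    3 * GG N Hv U R = 2 * (Phi N Hv U : ℤ) - 2 * sf N Hv U R
      - ∑ K ∈ comps N (U \ R) \ bc N Hv U R, rho2 (Phi N Hv K)

/-- Upper bound for `M(U \ Z)`: it is attained by a maximiser `T` of `f` above `Z`. -/
def SHStmt : Prop :=
  ∀ (V X : Type) [Fintype V] [DecidableEq V] [DecidableEq X] (N : V → Finset X)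
    (Hv U Z : Finset X), World N Hv → Z ⊆ U \ Hv →
    ∃ T, Z ⊆ T ∧ T ⊆ U \ Hv ∧ (∀ T', Z ⊆ T' → T' ⊆ U \ Hv → sf N Hv U T' ≤ sf N Hv U T) ∧
      ∀ R, Z ⊆ R → R ⊆ U \ Hv →
        MM N Hv (U \ Z) ≤ sf N Hv U T - (J N U Z).card + GG N Hv U R

/-- Additivity of the potential over a closed part. -/
def ADStmt : Prop :=
  ∀ (V X : Type) [Fintype V] [DecidableEq V] [DecidableEq X] (N : V → Finset X)
    (Hv U K : Finset X), World N Hv → Closed N U K →
    MM N Hv U = MM N Hv K + MM N Hv (U \ K)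

/-! ### The exchange lemma and its consequences -/

/-- `f`-part of the exchange lemma. -/
def EL1Stmt : Prop :=
  ∀ (V X : Type) [Fintype V] [DecidableEq V] [DecidableEq X] (N : V → Finset X)
    (Hv U R T : Finset X), World N Hv → R ⊆ U \ Hv → T ⊆ U \ Hv →
    sf N Hv U T + 2 * ((hitc N Hv U R T (Tt N Hv U R T)).card : ℤ)
      ≤ sf N Hv U (Tt N Hv U R T) + ∑ K ∈ KO N Hv U R T, sf N Hv K (T ∩ K)
        + 2 * ((HH N Hv U R T).card : ℤ)

/-- `G(R ∪ T)` component by component. -/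
def EL2Stmt : Prop :=
  ∀ (V X : Type) [Fintype V] [DecidableEq V] [DecidableEq X] (N : V → Finset X)
    (Hv U R T : Finset X), World N Hv → R ⊆ U \ Hv → T ⊆ U \ Hv →
    GG N Hv U (R ∪ T) = GG N Hv U R
      + ∑ K ∈ comps N (U \ R), (GG N Hv K (T ∩ K) - gv N Hv K)

/-- Un-hitting the clusters closed by `T` gains at least 2 for each of them. -/
def EL3Stmt : Prop :=
  ∀ (V X : Type) [Fintype V] [DecidableEq V] [DecidableEq X] (N : V → Finset X)
    (Hv U R T : Finset X), World N Hv → R ⊆ U \ Hv → T ⊆ U \ Hv →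
    GG N Hv U (Rt N Hv U R T) + 2 * ((HH N Hv U R T).card : ℤ) ≤ GG N Hv U (R ∪ T)

/-- Change of `G` in one component `K`. -/
def EL4Stmt : Prop :=
  ∀ (V X : Type) [Fintype V] [DecidableEq V] [DecidableEq X] (N : V → Finset X)
    (Hv K B : Finset X), World N Hv → Conn N K → B ⊆ K \ Hv → B.Nonempty →
    (Bad N Hv K → GG N Hv K B - gv N Hv K ≤ - sf N Hv K B) ∧
    (¬ Bad N Hv K → sf N Hv K B ≤ 0 → GG N Hv K B - gv N Hv K ≤ - sf N Hv K B) ∧
    (¬ Bad N Hv K → 0 < sf N Hv K B → GG N Hv K B - gv N Hv K ≤ 0)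

/-- EXCHANGE LEMMA. `T' = T` minus the parts of `T` in components `K` of `U \ R` for which
`f_K(T ∩ K) ≤ β(K)`; `R' = (R ∪ T)` minus the clusters closed by `T` and hit by `R`. -/
def ELStmt : Prop :=
  ∀ (V X : Type) [Fintype V] [DecidableEq V] [DecidableEq X] (N : V → Finset X)
    (Hv U R T : Finset X), World N Hv → R ⊆ U \ Hv → T ⊆ U \ Hv →
    ∃ R' T', T ⊆ R' ∧ R' ⊆ U \ Hv ∧ T' ⊆ T ∧ T ∩ R ⊆ T' ∧
      (∀ K ∈ comps N (U \ R), (T' ∩ K).Nonempty → GG N Hv U (R ∪ (T ∩ K)) ≤ GG N Hv U R) ∧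
      sf N Hv U T + GG N Hv U R' + 2 * ((hitc N Hv U R T T').card : ℤ)
        ≤ sf N Hv U T' + GG N Hv U R

/-- There is a maximal optimal set. -/
def EXAStmt : Prop :=
  ∀ (V X : Type) [Fintype V] [DecidableEq V] [DecidableEq X] (N : V → Finset X)
    (Hv U : Finset X), ∃ A, MaxOpt N Hv U A

/-- Exchange lemma for a maximal optimal set. -/
def ELAStmt : Prop :=
  ∀ (V X : Type) [Fintype V] [DecidableEq V] [DecidableEq X] (N : V → Finset X)
    (Hv U A T : Finset X), World N Hv → MaxOpt N Hv U A → T ⊆ U \ Hv →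
    ∃ R', T ⊆ R' ∧ R' ⊆ U \ Hv ∧
      sf N Hv U T + GG N Hv U R' + 2 * ((hitc N Hv U A T (T ∩ A)).card : ℤ)
        ≤ sf N Hv U (T ∩ A) + Gam N Hv U

/-- `F` is attained inside `A`. -/
def FAStmt : Prop :=
  ∀ (V X : Type) [Fintype V] [DecidableEq V] [DecidableEq X] (N : V → Finset X)
    (Hv U A : Finset X), World N Hv → MaxOpt N Hv U A →
    ∃ P, P ⊆ A ∧ sf N Hv U P = F2 N Hv U

/-- Removing targets. -/
def MOStmt : Prop :=
  ∀ (V X : Type) [Fintype V] [DecidableEq V] [DecidableEq X] (N : V → Finset X)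
    (Hv U Z : Finset X), World N Hv → Z ⊆ U \ Hv →
    MM N Hv (U \ Z) + (J N U Z).card ≤ MM N Hv U

/-- Every move lowers the potential. -/
def SCStmt : Prop :=
  ∀ (V X : Type) [Fintype V] [DecidableEq V] [DecidableEq X] (N : V → Finset X)
    (Hv U : Finset X) (v : V), World N Hv → (N v ∩ U).Nonempty →
    MM N Hv (U \ N v) + 1 ≤ MM N Hv U

/-- The potential is nonnegative. -/
def NNStmt : Prop :=
  ∀ (V X : Type) [Fintype V] [DecidableEq V] [DecidableEq X] (N : V → Finset X)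
    (Hv U : Finset X), World N Hv → 0 ≤ MM N Hv U

/-! ### Drops -/

/-- A light move followed by an extraction. -/
def DXStmt : Prop :=
  ∀ (V X : Type) [Fintype V] [DecidableEq V] [DecidableEq X] (N : V → Finset X)
    (Hv U Z : Finset X) (v : V), World N Hv → (∀ W, W ⊂ U → (ns N W : ℤ) ≤ MM N Hv W) →
    (N v ∩ U).Nonempty → N v ∩ U ⊆ Z → Z ⊆ U \ Hv →
    (ns N (U \ N v) : ℤ) + 2 * ((N v ∩ U).card : ℤ) ≤ MM N Hv U + ph N U Z

/-- Drop of a light move in terms of subsets of `A`. -/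
def DRStmt : Prop :=
  ∀ (V X : Type) [Fintype V] [DecidableEq V] [DecidableEq X] (N : V → Finset X)
    (Hv U A : Finset X) (v : V), World N Hv → (∀ W, W ⊂ U → (ns N W : ℤ) ≤ MM N Hv W) →
    MaxOpt N Hv U A → (N v ∩ U).Nonempty → N v ∩ U ⊆ U \ Hv →
    ∃ P, P ⊆ A ∧ N v ∩ A ⊆ P ∧
      (ns N (U \ N v) : ℤ) + (J N U (N v ∩ U)).card ≤ sf N Hv U P + Gam N Hv U ∧
      ∀ C ∈ bc N Hv U A, (N v ∩ C).Nonempty → tok N U C ⊆ P →
        (ns N (U \ N v) : ℤ) + (J N U (N v ∩ U)).card + 2 ≤ sf N Hv U P + Gam N Hv U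

/-- The same for extraction sets: upper bound for `M(U \ Z)`. -/
def DZStmt : Prop :=
  ∀ (V X : Type) [Fintype V] [DecidableEq V] [DecidableEq X] (N : V → Finset X)
    (Hv U A Z : Finset X), World N Hv → MaxOpt N Hv U A → Z ⊆ U \ Hv →
    ∃ P, P ⊆ A ∧ Z ∩ A ⊆ P ∧
      MM N Hv (U \ Z) + (J N U Z).card ≤ sf N Hv U P + Gam N Hv U

/-! ### Structure inside a maximal optimal set -/

/-- Clusters closed by subsets of `A` are exactly the clusters closed by `A` with their tokens in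
the subset. -/
def UHStmt : Prop :=
  ∀ (V X : Type) [Fintype V] [DecidableEq V] [DecidableEq X] (N : V → Finset X)
    (Hv U A T C : Finset X), World N Hv → MaxOpt N Hv U A → T ⊆ A →
    (C ∈ bc N Hv U T ↔ C ∈ bc N Hv U A ∧ tok N U C ⊆ T)

/-- `f` is supermodular on the subsets of `A`. -/
def SUStmt : Prop :=
  ∀ (V X : Type) [Fintype V] [DecidableEq V] [DecidableEq X] (N : V → Finset X)
    (Hv U A T₁ T₂ : Finset X), World N Hv → MaxOpt N Hv U A → T₁ ⊆ A → T₂ ⊆ A →
    sf N Hv U T₁ + sf N Hv U T₂ + 2 * ((newc N Hv U A T₁ T₂).card : ℤ)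
      ≤ sf N Hv U (T₁ ∪ T₂) + sf N Hv U (T₁ ∩ T₂)

/-- Consequences of the absence of extraction: `φ ≥ 1/2`; a target of `A` lies in a subset `P` of
`A` with `sf P ≥ -1 + #J({z})`; a nonempty `B ⊆ A` with `φ(B) = 1/2` has a superset in `A` with
`sf ≥ 0`. -/
def XEStmt : Prop :=
  ∀ (V X : Type) [Fintype V] [DecidableEq V] [DecidableEq X] (N : V → Finset X)
    (Hv U A : Finset X), Ctx N Hv U A →
    (∀ Z, Z ⊆ U \ Hv → Z.Nonempty → 1 ≤ ph N U Z) ∧
    (∀ B, B ⊆ A → B.Nonempty → ∃ P, B ⊆ P ∧ P ⊆ A ∧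
      F2 N Hv U + 1 ≤ sf N Hv U P + ph N U B)

/-- Data attached to a cluster `C` closed by `A`: it is nonempty, disjoint from `A` and from `Hv`,
its tokens are in `A` and there is at least one; every player meeting `C` is light, has exactly
two targets in `C`; through every token there is a player meeting `C`. -/
def CLStmt : Prop :=
  ∀ (V X : Type) [Fintype V] [DecidableEq V] [DecidableEq X] (N : V → Finset X)
    (Hv U A C : Finset X), Ctx N Hv U A → C ∈ bc N Hv U A →
    C.Nonempty ∧ Disjoint C A ∧ C ⊆ U \ Hv ∧ tok N U C ⊆ A ∧ (tok N U C).Nonempty ∧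
      (∀ v, (N v ∩ C).Nonempty → (N v ∩ C).card = 2 ∧ N v ∩ U ⊆ U \ Hv ∧
        N v ∩ A ⊆ tok N U C) ∧
      (∀ w ∈ tok N U C, ∃ v, w ∈ N v ∧ (N v ∩ C).Nonempty)

/-! ### The cases -/

/-- A bad position. -/
def BDStmt : Prop :=
  ∀ (V X : Type) [Fintype V] [DecidableEq V] [DecidableEq X] (N : V → Finset X) (Hv U : Finset X),
    World N Hv → Bad N Hv U → (ns N U : ℤ) ≤ MM N Hv U

/-- Conclusion: a Dominator move which lowers the value by 3. -/
def Good3 {V X : Type} [Fintype V] [DecidableEq V] [DecidableEq X] (N : V → Finset X)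
    (Hv U : Finset X) : Prop :=
  ∃ v, (N v ∩ U).Nonempty ∧ (ns N (U \ N v) : ℤ) + 3 ≤ MM N Hv U

/-- Case I: `F > 0`. -/
def CIStmt : Prop :=
  ∀ (V X : Type) [Fintype V] [DecidableEq V] [DecidableEq X] (N : V → Finset X)
    (Hv U A : Finset X), Ctx N Hv U A → 0 < F2 N Hv U → Good3 N Hv U

/-- Case IIa: `F = 0`, attained by a nonempty subset of `A`. -/
def CIIaStmt : Prop :=
  ∀ (V X : Type) [Fintype V] [DecidableEq V] [DecidableEq X] (N : V → Finset X)
    (Hv U A : Finset X), Ctx N Hv U A → F2 N Hv U = 0 →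
    (∃ P, P ⊆ A ∧ P.Nonempty ∧ sf N Hv U P = 0) → Good3 N Hv U

/-- Case IIb: `F = 0`, `A` nonempty and `f < 0` on the nonempty subsets of `A`. -/
def CIIbStmt : Prop :=
  ∀ (V X : Type) [Fintype V] [DecidableEq V] [DecidableEq X] (N : V → Finset X)
    (Hv U A : Finset X), Ctx N Hv U A → F2 N Hv U = 0 → A.Nonempty →
    (∀ P, P ⊆ A → P.Nonempty → sf N Hv U P ≤ -1) → Good3 N Hv U

/-- Case `A = ∅` (the last case). -/
def R0Stmt : Prop :=
  ∀ (V X : Type) [Fintype V] [DecidableEq V] [DecidableEq X] (N : V → Finset X)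
    (Hv U : Finset X), Ctx N Hv U ∅ → F2 N Hv U = 0 →
    MM N Hv U = 2 * (Phi N Hv U : ℤ) / 3 →
    (∀ R, R ⊆ U \ Hv → R.Nonempty → sf N Hv U R ≤ -1 ∧ MM N Hv U < GG N Hv U R) →
    (∀ v, (N v ∩ U).Nonempty → (ns N (U \ N v) : ℤ) + 1 ≤ MM N Hv U) →
    (ns N U : ℤ) ≤ MM N Hv U

end Pool.Agent.TDG
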