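import Mathlib
import Pool.Agent.Helper29_TDG.Stmts
import Pool.Agent.Helper53_TDG.Comp

/-!
# Assembly of the main theorem on positions
-/

set_option autoImplicit false
set_option linter.unusedSectionVars false

namespace Pool.Agent.TDG.H29

open Finset Helper77.TDG Pool.Agent.TDG

section

variable {V X : Type} [Fintype V] [DecidableEq V] [DecidableEq X] {N : V → Finset X}
  {Hv U : Finset X}

lemma has_player (hW : World N Hv) : ∀ x, ∃ v, x ∈ N v := by
  intro x
  by_cases hx : x ∈ Hv
  · have h := hW.one x hx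
    have : 0 < (univ.filter fun v => x ∈ N v).card := by omega
    obtain ⟨v, hv⟩ := card_pos.1 this
    exact ⟨v, (mem_filter.1 hv).2⟩
  · have h := hW.two x hx
    have : 0 < (univ.filter fun v => x ∈ N v).card := by omega
    obtain ⟨v, hv⟩ := card_pos.1 this
    exact ⟨v, (mem_filter.1 hv).2⟩

lemma sf_empty_nonneg : 0 ≤ sf N Hv U ∅ := by
  unfold sf ph
  simp

lemma sf_empty_of_conn (hc : Conn N U) (hb : ¬ Bad N Hv U) : sf N Hv U ∅ = 0 := by
  have h : bc N Hv U ∅ = ∅ := by
    rw [eq_empty_iff_forall_notMem]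
    intro K hK
    rw [mem_bc, sdiff_empty] at hK
    have := hc.2 K hK.2.1.1 hK.1
    rw [this] at hK
    exact hb hK.2
  unfold sf ph
  rw [h]
  simp

/-- Local data give the bound. -/
lemma ns_le_MM (hnn : 0 ≤ MM N Hv U)
    (h1 : ∀ v, (N v ∩ U).Nonempty → (ns N (U \ N v) : ℤ) + 1 ≤ MM N Hv U)
    (h3 : Good3 N Hv U) : (ns N U : ℤ) ≤ MM N Hv U := by
  obtain ⟨m, hm⟩ : ∃ m : ℕ, (m : ℤ) = MM N Hv U := ⟨(MM N Hv U).toNat, Int.toNat_of_nonneg hnn⟩
  rw [← hm] at h1 ⊢
  obtain ⟨v, hv, hv3⟩ := h3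
  rw [← hm] at hv3
  have : ns N U ≤ m := by
    refine ns_le_of_loc ⟨fun w hw => ?_, fun _ => ⟨v, hv, ?_⟩, fun _ => ⟨v, hv, ?_⟩⟩
    · have := h1 w hw
      omega
    · omega
    · omega
  exact_mod_cast this

end

theorem asm (hBD : BDStmt) (hNN : NNStmt) (hSC : SCStmt) (hAD : ADStmt) (hEXA : EXAStmt)
    (hELA : ELAStmt) (hCI : CIStmt) (hCIIa : CIIaStmt) (hCIIb : CIIbStmt)
    (hR0 : R0Stmt) : MainStmt := by
  intro V X _ _ _ N Hv U hW
  induction hn : U.card using Nat.strong_induction_on generalizing U with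
  | _ n IH =>
    subst hn
    have ih : ∀ W, W ⊂ U → (ns N W : ℤ) ≤ MM N Hv W := fun W h =>
      IH W.card (card_lt_card h) W rfl
    -- the empty position
    rcases U.eq_empty_or_nonempty with rfl | hUne
    · rw [ns_empty]
      exact_mod_cast hNN V X N Hv ∅ hW
    -- reduction to connected positions
    by_cases hc : Conn N U
    swap
    · have hc' : ∃ K, K.Nonempty ∧ Closed N U K ∧ K ≠ U := by
        by_contra hcon
        push Not at hcon
        exact hc ⟨hUne, fun D h1 h2 => hcon D h1 h2⟩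
      obtain ⟨K, hK1, hK2, hK3⟩ := hc'
      have hKU : K ⊂ U := Finset.ssubset_iff_subset_ne.2 ⟨hK2.1, hK3⟩
      have hKU' : U \ K ⊂ U := by
        refine Finset.ssubset_iff_subset_ne.2 ⟨sdiff_subset, fun h => ?_⟩
        obtain ⟨x, hx⟩ := hK1
        have : x ∈ U \ K := by rw [h]; exact hK2.1 hx
        exact (mem_sdiff.1 this).2 hx
      have h1 := ns_union hK2.sep
      rw [union_sdiff_of_subset hK2.1] at h1
      have h2 := hAD V X N Hv U K hW hK2
      have h3 := ih K hKU
      have h4 := ih _ hKU'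
      rw [h2]
      have : (ns N U : ℤ) ≤ ns N K + ns N (U \ K) := by exact_mod_cast h1
      linarith
    -- bad positions
    by_cases hb : Bad N Hv U
    · exact hBD V X N Hv U hW hb
    -- extraction
    by_cases hE : ∀ Z, Z ⊆ U \ Hv → Z.Nonempty →
        MM N Hv U < 2 * (Z.card : ℤ) + MM N Hv (U \ Z)
    swap
    · push Not at hE
      obtain ⟨Z, hZ1, hZ2, hZ3⟩ := hE
      have h1 := ns_extract (N := N) (has_player hW) U Z
      have h2 : (ns N (U \ Z) : ℤ) ≤ MM N Hv (U \ Z) := by
        refine ih _ (Finset.ssubset_iff_subset_ne.2 ⟨sdiff_subset, fun h => ?_⟩)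
        obtain ⟨x, hx⟩ := hZ2
        have : x ∈ U \ Z := by rw [h]; exact (mem_sdiff.1 (hZ1 hx)).1
        exact (mem_sdiff.1 this).2 hx
      have h3 : (ns N U : ℤ) ≤ 2 * Z.card + ns N (U \ Z) := by exact_mod_cast h1
      linarith
    obtain ⟨A, hA⟩ := hEXA V X N Hv U
    have hctx : Ctx N Hv U A := ⟨hW, hc, hb, ih, hE, hA⟩
    have hsc : ∀ v, (N v ∩ U).Nonempty → (ns N (U \ N v) : ℤ) + 1 ≤ MM N Hv U := by
      intro v hv
      have h1 := hSC V X N Hv U v hW hv
      have h2 : (ns N (U \ N v) : ℤ) ≤ MM N Hv (U \ N v) := by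
        refine IH _ ?_ _ rfl
        exact sdiff_card_lt hv
      linarith
    have hnn := hNN V X N Hv U hW
    have hs0 : sf N Hv U ∅ = 0 := sf_empty_of_conn hc hb
    have hF0 : 0 ≤ F2 N Hv U := by
      have := sf_le_F2 (N := N) (Hv := Hv) (U := U) (R := ∅) (empty_subset _)
      rw [hs0] at this
      exact this
    rcases hF0.lt_or_eq with hF | hF
    · exact ns_le_MM hnn hsc (hCI V X N Hv U A hctx hF)
    have hF' : F2 N Hv U = 0 := hF.symm
    rcases A.eq_empty_or_nonempty with hAe | hAne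
    · subst hAe
      have hGG : GG N Hv U ∅ = gv N Hv U := by
        unfold GG
        rw [sdiff_empty, hc.comps]
        simp
      have hMM : MM N Hv U = 2 * (Phi N Hv U : ℤ) / 3 := by
        unfold MM
        rw [hF', ← hA.2.1, hGG]
        unfold gv
        rw [if_neg hb, zero_add]
      refine hR0 V X N Hv U hctx hF' hMM ?_ hsc
      intro R hR hRne
      have h1 : Gam N Hv U < GG N Hv U R := by
        refine hA.2.2 R ?_ hR
        exact Finset.ssubset_iff_subset_ne.2 ⟨empty_subset _, fun h => by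
          rw [← h] at hRne; exact not_nonempty_empty hRne⟩
      refine ⟨?_, by unfold MM; rw [hF', zero_add]; exact h1⟩
      obtain ⟨R', hR'1, hR'2, hR'3⟩ := hELA V X N Hv U ∅ R hW hA hR
      rw [inter_empty, hs0] at hR'3
      have h2 : Gam N Hv U < GG N Hv U R' := by
        refine hA.2.2 R' ?_ hR'2
        refine Finset.ssubset_iff_subset_ne.2 ⟨empty_subset _, fun h => ?_⟩
        have := hRne.mono hR'1
        rw [← h] at this
        exact not_nonempty_empty this
      have h3 : (0 : ℤ) ≤ ((hitc N Hv U ∅ R ∅).card : ℤ) := Int.natCast_nonneg _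
      linarith
    · by_cases h0 : ∃ P, P ⊆ A ∧ P.Nonempty ∧ sf N Hv U P = 0
      · exact ns_le_MM hnn hsc (hCIIa V X N Hv U A hctx hF' h0)
      · push Not at h0
        refine ns_le_MM hnn hsc (hCIIb V X N Hv U A hctx hF' hAne ?_)
        intro P hP hPne
        have h1 := sf_le_F2 (N := N) (Hv := Hv) (U := U) (R := P) (hP.trans hA.1)
        have h2 := h0 P hP hPne
        rw [hF'] at h1
        omega

end Pool.Agent.TDG.H29
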