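import Pool.Agent.Helper29_TDG.Main
import Pool.Agent.Helper18_TDG.El34
import Pool.Agent.Helper34_TDL.R0Fin
import Pool.Agent.Helper53_TDG.Fin

/-!
# The main statement on positions, without hypotheses
-/

set_option autoImplicit false

namespace Pool.Agent.TDG.H29

open Pool.Agent.TDG

theorem mainStmt : MainStmt :=
  mainStmt_of (H18.el3 H71.bf) (H18.el4 H71.bf) BR.r0

end Pool.Agent.TDG.H29
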