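import Mathlib
import Pool.Agent.Helper29_TDG.ASM

/-!
# Case IIa
-/

set_option autoImplicit false
set_option linter.unusedSectionVars false

namespace Pool.Agent.TDG.H29

open Finset Helper77.TDG Pool.Agent.TDG

theorem ciia (hDX : DXStmt) (hDR : DRStmt) (hUH : UHStmt) (hSU : SUStmt) (hXE : XEStmt)
    (hCL : CLStmt) : CIIaStmt := by
  classical
  intro V X _ _ _ N Hv U A hctx hF hP
  by_contra hng
  have hW := hctx.hW
  have hA := hctx.hA
  have hMM : MM N Hv U = Gam N Hv U := by unfold MM; rw [hF, zero_add]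
  have hng' : ∀ v, (N v ∩ U).Nonempty → MM N Hv U < (ns N (U \ N v) : ℤ) + 3 := by
    intro v hv
    by_contra hcon
    push Not at hcon
    exact hng ⟨v, hv, hcon⟩
  have hAU : A ⊆ U \ Hv := hA.1
  have hle : ∀ Q, Q ⊆ A → sf N Hv U Q ≤ 0 := by
    intro Q hQ
    have := sf_le_F2 (N := N) (Hv := Hv) (U := U) (R := Q) (hQ.trans hAU)
    rwa [hF] at this
  obtain ⟨hX1, hX2⟩ := hXE V X N Hv U A hctx
  -- the minimal maximiser
  obtain ⟨P₀, hP₀A, hP₀ne, hP₀0, hP₀min⟩ : ∃ P, P ⊆ A ∧ P.Nonempty ∧ sf N Hv U P = 0 ∧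
      ∀ Q, Q ⊆ P → Q.Nonempty → Q ≠ P → sf N Hv U Q ≤ -1 := by
    have hne : (A.powerset.filter fun P => P.Nonempty ∧ sf N Hv U P = 0).Nonempty := by
      obtain ⟨P, h1, h2, h3⟩ := hP
      exact ⟨P, mem_filter.2 ⟨mem_powerset.2 h1, h2, h3⟩⟩
    obtain ⟨P, hPm, hmin⟩ := exists_min_image _ (fun P => P.card) hne
    rw [mem_filter, mem_powerset] at hPm
    refine ⟨P, hPm.1, hPm.2.1, hPm.2.2, fun Q h1 h2 h3 => ?_⟩
    have h4 := hle Q (h1.trans hPm.1)
    by_contra hcon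
    have h5 : sf N Hv U Q = 0 := by omega
    have h6 := hmin Q (mem_filter.2 ⟨mem_powerset.2 (h1.trans hPm.1), h2, h5⟩)
    exact h3 (eq_of_subset_of_card_le h1 h6)
  -- fact 0
  have fact0 : ∀ C ∈ bc N Hv U P₀, ∀ w ∈ tok N U C, ∀ v, w ∈ N v → (N v ∩ C).Nonempty →
      (∃ T, T ⊆ P₀ ∧ sf N Hv U T = -1 ∧ w ∈ T ∧ ¬ tok N U C ⊆ T) ∧
      (J N U (N v ∩ U)).card ≤ 1 := by
    intro C hC w hw v hwv hvC
    obtain ⟨hCA, hCP⟩ := (hUH V X N Hv U A P₀ C hW hA hP₀A).1 hC
    obtain ⟨hC1, hC2, hC3, hC4, hC5, hC6, hC7⟩ := hCL V X N Hv U A C hctx hCA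
    obtain ⟨hv1, hv2, hv3⟩ := hC6 v hvC
    have hvU : (N v ∩ U).Nonempty :=
      hvC.mono (inter_subset_inter_left (hC3.trans sdiff_subset))
    obtain ⟨P₁, hP1, hP2, hP3, hP4⟩ := hDR V X N Hv U A v hW hctx.ih hA hvU hv2
    have hwA : w ∈ A := hC4 hw
    have hwP : w ∈ P₁ := hP2 (mem_inter.2 ⟨hwv, hwA⟩)
    have hJ : 1 ≤ (J N U (N v ∩ U)).card :=
      card_pos.2 ⟨v, mem_J.2 ⟨hvU, Subset.refl _⟩⟩
    have hbad := hng' v hvU
    rw [hMM] at hbad
    have hs1 := hle P₁ hP1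
    have hnt : ¬ tok N U C ⊆ P₁ := by
      intro ht
      have := hP4 C hCA hvC ht
      omega
    have hsu := hSU V X N Hv U A P₁ P₀ hW hA hP1 hP₀A
    rw [hP₀0] at hsu
    have hs2 := hle (P₁ ∪ P₀) (union_subset hP1 hP₀A)
    have hs3 : sf N Hv U (P₁ ∩ P₀) ≤ -1 := by
      refine hP₀min _ inter_subset_right ⟨w, mem_inter.2 ⟨hwP, hCP hw⟩⟩ ?_
      intro h
      apply hnt
      rw [← h] at hCP
      exact hCP.trans inter_subset_left
    have hnn : (0 : ℤ) ≤ ((newc N Hv U A P₁ P₀).card : ℤ) := Int.natCast_nonneg _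
    refine ⟨⟨P₁ ∩ P₀, inter_subset_right, ?_, mem_inter.2 ⟨hwP, hCP hw⟩, fun h => hnt (h.trans inter_subset_left)⟩, ?_⟩
    · omega
    · omega
  -- the family of tight sets which meet the tokens of a cluster
  have hbcP : (bc N Hv U P₀).Nonempty := by
    rw [nonempty_iff_ne_empty]
    intro h
    have h1 := hX1 P₀ (hP₀A.trans hAU) hP₀ne
    unfold sf at hP₀0
    rw [h] at hP₀0
    simp only [card_empty, Nat.cast_zero, mul_zero, add_zero] at hP₀0
    omega
  obtain ⟨B, hBP, hB1, hBC, hBmin⟩ : ∃ B, B ⊆ P₀ ∧ sf N Hv U B = -1 ∧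
      (∃ C ∈ bc N Hv U P₀, (B ∩ tok N U C).Nonempty) ∧
      ∀ T, T ⊆ B → sf N Hv U T = -1 → (∃ C ∈ bc N Hv U P₀, (T ∩ tok N U C).Nonempty) → T = B := by
    have hne : (P₀.powerset.filter fun T => sf N Hv U T = -1 ∧
        ∃ C ∈ bc N Hv U P₀, (T ∩ tok N U C).Nonempty).Nonempty := by
      obtain ⟨C, hC⟩ := hbcP
      obtain ⟨hCA, hCP⟩ := (hUH V X N Hv U A P₀ C hW hA hP₀A).1 hC
      obtain ⟨hC1, hC2, hC3, hC4, ⟨w, hw⟩, hC6, hC7⟩ := hCL V X N Hv U A C hctx hCA
      obtain ⟨v, hwv, hvC⟩ := hC7 w hw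
      obtain ⟨⟨T, hT1, hT2, hT3, hT4⟩, -⟩ := fact0 C hC w hw v hwv hvC
      exact ⟨T, mem_filter.2 ⟨mem_powerset.2 hT1, hT2, C, hC, w, mem_inter.2 ⟨hT3, hw⟩⟩⟩
    obtain ⟨B, hBm, hmin⟩ := exists_min_image _ (fun P => P.card) hne
    rw [mem_filter, mem_powerset] at hBm
    refine ⟨B, hBm.1, hBm.2.1, hBm.2.2, fun T h1 h2 h3 => ?_⟩
    have h6 := hmin T (mem_filter.2 ⟨mem_powerset.2 (h1.trans hBm.1), h2, h3⟩)
    exact eq_of_subset_of_card_le h1 h6
  have hBA : B ⊆ A := hBP.trans hP₀A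
  obtain ⟨C₀, hC₀, w₀, hw₀⟩ := hBC
  rw [mem_inter] at hw₀
  have hBne : B.Nonempty := ⟨w₀, hw₀.1⟩
  rcases (bc N Hv U B).eq_empty_or_nonempty with hbB | ⟨C, hC⟩
  · -- nothing closed by `B`
    have hph : ph N U B = 1 := by
      have := hB1
      unfold sf at this
      rw [hbB] at this
      simp only [card_empty, Nat.cast_zero, mul_zero, add_zero] at this
      omega
    by_cases hq : ∃ q ∈ J N U B, 2 ≤ (N q ∩ U).card
    · obtain ⟨q, hqJ, hq2⟩ := hq
      rw [mem_J] at hqJ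
      have h1 := hDX V X N Hv U B q hW hctx.ih hqJ.1 hqJ.2 (hBA.trans hAU)
      rw [hph] at h1
      have h2 := hng' q hqJ.1
      omega
    · push Not at hq
      have hcard : (J N U B).card ≤ B.card := by
        have hsub : J N U B ⊆ B.biUnion fun z => J N U {z} := by
          intro q hqJ
          have h1 := hq q hqJ
          rw [mem_J] at hqJ
          obtain ⟨x, hx⟩ := hqJ.1
          rw [mem_biUnion]
          refine ⟨x, hqJ.2 hx, mem_J.2 ⟨hqJ.1, fun y hy => ?_⟩⟩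
          rw [mem_singleton]
          have h2 : (N q ∩ U).card ≤ 1 := by omega
          exact card_le_one.1 h2 y hy x hx
        refine (card_le_card hsub).trans (card_biUnion_le.trans ?_)
        calc ∑ z ∈ B, (J N U {z}).card ≤ ∑ z ∈ B, 1 := by
              refine sum_le_sum fun z hz => ?_
              have := hX1 {z} (singleton_subset_iff.2 (hAU (hBA hz))) (singleton_nonempty z)
              unfold ph at this
              rw [card_singleton] at this
              push_cast at this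
              omega
          _ = B.card := by simp
      have h1 : B.card = 1 ∧ (J N U B).card = 1 := by
        unfold ph at hph
        have := card_pos.2 hBne
        omega
      obtain ⟨z, hz⟩ := card_eq_one.1 h1.1
      have hzw : z = w₀ := by
        have := hw₀.1
        rw [hz, mem_singleton] at this
        exact this.symm
      subst hzw
      obtain ⟨q, hqe⟩ := card_eq_one.1 h1.2
      have hqJ : q ∈ J N U B := by rw [hqe]; exact mem_singleton_self q
      rw [mem_J, hz] at hqJ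
      obtain ⟨hCA, hCP⟩ := (hUH V X N Hv U A P₀ C₀ hW hA hP₀A).1 hC₀
      obtain ⟨hC1, hC2, hC3, hC4, hC5, hC6, hC7⟩ := hCL V X N Hv U A C₀ hctx hCA
      obtain ⟨v, hwv, hvC⟩ := hC7 z hw₀.2
      obtain ⟨-, hJ⟩ := fact0 C₀ hC₀ z hw₀.2 v hwv hvC
      have hvU : (N v ∩ U).Nonempty :=
        hvC.mono (inter_subset_inter_left (hC3.trans sdiff_subset))
      have hzU : z ∈ U := (mem_sdiff.1 (hAU (hC4 hw₀.2))).1
      have hv1 : v ∈ J N U (N v ∩ U) := mem_J.2 ⟨hvU, Subset.refl _⟩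
      have hq1 : q ∈ J N U (N v ∩ U) := by
        refine mem_J.2 ⟨hqJ.1, hqJ.2.trans ?_⟩
        rw [singleton_subset_iff]
        exact mem_inter.2 ⟨hwv, hzU⟩
      have hne : q ≠ v := by
        rintro rfl
        obtain ⟨x, hx⟩ := hvC
        rw [mem_inter] at hx
        have hxU : x ∈ U := (mem_sdiff.1 (hC3 hx.2)).1
        have := hqJ.2 (mem_inter.2 ⟨hx.1, hxU⟩)
        rw [mem_singleton] at this
        subst this
        exact disjoint_left.1 hC2 hx.2 (hC4 hw₀.2)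
      have : 1 < (J N U (N v ∩ U)).card := one_lt_card.2 ⟨q, hq1, v, hv1, hne⟩
      omega
  · -- a cluster closed by `B`
    obtain ⟨hCA, hCB⟩ := (hUH V X N Hv U A B C hW hA hBA).1 hC
    have hCP₀ : C ∈ bc N Hv U P₀ :=
      (hUH V X N Hv U A P₀ C hW hA hP₀A).2 ⟨hCA, hCB.trans hBP⟩
    obtain ⟨hC1, hC2, hC3, hC4, hC5, hC6, hC7⟩ := hCL V X N Hv U A C hctx hCA
    have hBneP : B ≠ P₀ := by
      intro h
      rw [h, hP₀0] at hB1
      norm_num at hB1
    -- avoiders contain `P₀ \ B`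
    have claim1 : ∀ T, T ⊆ P₀ → sf N Hv U T = -1 → (T ∩ tok N U C).Nonempty →
        ¬ tok N U C ⊆ T → P₀ \ B ⊆ T := by
      intro T h1 h2 h3 h4
      have hTB : (T ∩ B).Nonempty := h3.mono (inter_subset_inter_left hCB)
      have hne1 : T ∩ B ≠ B := by
        intro h
        apply h4
        rw [← h] at hCB
        exact hCB.trans inter_subset_left
      have hne2 : T ∩ B ≠ P₀ := by
        intro h
        apply hBneP
        exact Subset.antisymm hBP (h ▸ inter_subset_right)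
      have hs1 : sf N Hv U (T ∩ B) ≤ -1 :=
        hP₀min _ (inter_subset_left.trans h1) hTB hne2
      have hs2 : sf N Hv U (T ∩ B) ≠ -1 := by
        intro h
        refine hne1 (hBmin _ inter_subset_right h ⟨C, hCP₀, ?_⟩)
        obtain ⟨x, hx⟩ := h3
        rw [mem_inter] at hx
        exact ⟨x, mem_inter.2 ⟨mem_inter.2 ⟨hx.1, hCB hx.2⟩, hx.2⟩⟩
      have hsu := hSU V X N Hv U A T B hW hA (h1.trans hP₀A) hBA
      rw [h2, hB1] at hsu
      have hnn : (0 : ℤ) ≤ ((newc N Hv U A T B).card : ℤ) := Int.natCast_nonneg _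
      have heq : T ∪ B = P₀ := by
        by_contra hcon
        have := hP₀min (T ∪ B) (union_subset h1 hBP) (hBne.mono subset_union_right) hcon
        omega
      intro x hx
      rw [mem_sdiff] at hx
      have : x ∈ T ∪ B := by rw [heq]; exact hx.1
      rcases mem_union.1 this with h | h
      · exact h
      · exact absurd h hx.2
    have hPB : (P₀ \ B).Nonempty := by
      rw [nonempty_iff_ne_empty]
      intro h
      rw [sdiff_eq_empty_iff_subset] at h
      exact hBneP (Subset.antisymm hBP h)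
    -- a maximal avoider
    have hne : (P₀.powerset.filter fun T => sf N Hv U T = -1 ∧ (T ∩ tok N U C).Nonempty ∧
        ¬ tok N U C ⊆ T).Nonempty := by
      obtain ⟨w, hw⟩ := hC5
      obtain ⟨v, hwv, hvC⟩ := hC7 w hw
      obtain ⟨⟨T, hT1, hT2, hT3, hT4⟩, -⟩ := fact0 C hCP₀ w hw v hwv hvC
      exact ⟨T, mem_filter.2 ⟨mem_powerset.2 hT1, hT2, ⟨w, mem_inter.2 ⟨hT3, hw⟩⟩, hT4⟩⟩
    obtain ⟨M, hM, hmax⟩ := exists_max_image _ (fun P => P.card) hne
    rw [mem_filter, mem_powerset] at hM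
    obtain ⟨hM1, hM2, hM3, hM4⟩ := hM
    apply hM4
    intro w hw
    obtain ⟨v, hwv, hvC⟩ := hC7 w hw
    obtain ⟨⟨T, hT1, hT2, hT3, hT4⟩, -⟩ := fact0 C hCP₀ w hw v hwv hvC
    have hT5 := claim1 T hT1 hT2 ⟨w, mem_inter.2 ⟨hT3, hw⟩⟩ hT4
    have hM5 := claim1 M hM1 hM2 hM3 hM4
    have hint : sf N Hv U (T ∩ M) ≤ -1 := by
      refine hP₀min _ (inter_subset_left.trans hT1) (hPB.mono (subset_inter hT5 hM5)) ?_
      intro h
      have : T = P₀ := Subset.antisymm hT1 (h ▸ inter_subset_left)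
      rw [this, hP₀0] at hT2
      norm_num at hT2
    have hsu := hSU V X N Hv U A T M hW hA (hT1.trans hP₀A) (hM1.trans hP₀A)
    rw [hT2, hM2] at hsu
    have hun := hle (T ∪ M) ((union_subset hT1 hM1).trans hP₀A)
    have hnt : ¬ tok N U C ⊆ T ∪ M := by
      intro h
      have hmem : C ∈ newc N Hv U A T M := by
        unfold newc
        exact mem_filter.2 ⟨hCA, h, hT4, hM4⟩
      have : 1 ≤ (newc N Hv U A T M).card := card_pos.2 ⟨C, hmem⟩
      omega
    have hne3 : T ∪ M ≠ P₀ := by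
      intro h
      apply hnt
      rw [h]
      exact hCB.trans hBP
    have hs4 := hP₀min (T ∪ M) (union_subset hT1 hM1)
      ⟨w, mem_union_left _ hT3⟩ hne3
    have hs5 : sf N Hv U (T ∪ M) = -1 := by
      have hnn : (0 : ℤ) ≤ ((newc N Hv U A T M).card : ℤ) := Int.natCast_nonneg _
      omega
    have hcard := hmax (T ∪ M) (mem_filter.2 ⟨mem_powerset.2 (union_subset hT1 hM1), hs5,
      ⟨w, mem_inter.2 ⟨mem_union_left _ hT3, hw⟩⟩, hnt⟩)
    have hMe : M = T ∪ M := eq_of_subset_of_card_le subset_union_right hcard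
    rw [hMe]
    exact mem_union_left _ hT3

end Pool.Agent.TDG.H29
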