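import Mathlib
import Pool.Agent.Helper29_TDG.ASM

/-!
# The `f`-part of the exchange lemma
-/

set_option autoImplicit false
set_option linter.unusedSectionVars false

namespace Pool.Agent.TDG.H29

open Finset Helper77.TDG Pool.Agent.TDG

theorem el1 : EL1Stmt := by
  classical
  intro V X _ _ _ N Hv U R T hW hR hT
  set S : Finset X := (KO N Hv U R T).biUnion id with hS
  have hKO : ∀ K, K ∈ KO N Hv U R T → K ∈ comps N (U \ R) ∧ (T ∩ K).Nonempty := by
    intro K hK
    unfold KO at hK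
    simp only [Finset.mem_filter] at hK
    exact ⟨hK.1, hK.2.1⟩
  have hTt : Tt N Hv U R T = T \ S := rfl
  have hRU : R ⊆ U := hR.trans sdiff_subset
  have hTU : T ⊆ U := hT.trans sdiff_subset
  -- cardinalities
  have hcard : T.card = (T \ S).card + ∑ K ∈ KO N Hv U R T, (T ∩ K).card := by
    have h1 : (T \ S).card + (T ∩ S).card = T.card := card_sdiff_add_card_inter T S
    have h2 : T ∩ S = (KO N Hv U R T).biUnion fun K => T ∩ K := by
      ext x
      simp only [hS, mem_inter, mem_biUnion, id]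
      tauto
    have h3 : (T ∩ S).card = ∑ K ∈ KO N Hv U R T, (T ∩ K).card := by
      rw [h2, card_biUnion]
      intro K hK L hL hKL
      have := comps_disjoint (hKO K hK).1 (hKO L hL).1 hKL
      exact this.mono inter_subset_right inter_subset_right
    omega
  -- players
  have hJ : (J N U T).card ≤ (J N U (T \ S)).card
      + ∑ K ∈ KO N Hv U R T, (J N K (T ∩ K)).card := by
    have hsub : J N U T ⊆ J N U (T \ S) ∪ (KO N Hv U R T).biUnion fun K => J N K (T ∩ K) := by
      intro v hv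
      rw [mem_union]
      by_cases h : v ∈ J N U (T \ S)
      · exact Or.inl h
      right
      rw [mem_J] at hv h
      have h' : ¬ N v ∩ U ⊆ T \ S := fun hh => h ⟨hv.1, hh⟩
      rw [not_subset] at h'
      obtain ⟨x, hx, hx'⟩ := h'
      have hxT := hv.2 hx
      have hxS : x ∈ S := by
        by_contra hcon
        exact hx' (mem_sdiff.2 ⟨hxT, hcon⟩)
      simp only [hS, mem_biUnion, id] at hxS
      obtain ⟨K, hK, hxK⟩ := hxS
      rw [mem_biUnion]
      refine ⟨K, hK, mem_J.2 ⟨⟨x, mem_inter.2 ⟨(mem_inter.1 hx).1, hxK⟩⟩, ?_⟩⟩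
      intro y hy
      rw [mem_inter] at hy
      have hyU : y ∈ U := (mem_sdiff.1 (comps_subset (hKO K hK).1 hy.2)).1
      exact mem_inter.2 ⟨hv.2 (mem_inter.2 ⟨hy.1, hyU⟩), hy.2⟩
    refine (card_le_card hsub).trans ((card_union_le _ _).trans ?_)
    exact Nat.add_le_add_left card_biUnion_le _
  -- clusters
  have hb : (bc N Hv U T).card + (hitc N Hv U R T (T \ S)).card ≤ (bc N Hv U (T \ S)).card
      + ∑ K ∈ KO N Hv U R T, (bc N Hv K (T ∩ K)).card + (HH N Hv U R T).card := by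
    have hsub : bc N Hv U T ⊆ ((bc N Hv U T ∩ bc N Hv U (T \ S)) ∪
        (KO N Hv U R T).biUnion fun K => bc N Hv K (T ∩ K)) ∪ HH N Hv U R T := by
      intro D hD
      have hD' := mem_bc.1 hD
      rw [mem_union, mem_union, mem_inter, mem_biUnion]
      by_cases hRD : (R ∩ D).Nonempty
      · right
        unfold HH
        exact mem_filter.2 ⟨hD, hRD⟩
      left
      have hDU : D ⊆ U \ R := by
        intro x hx
        rw [mem_sdiff]
        refine ⟨(mem_sdiff.1 (hD'.1.1 hx)).1, fun hxR => hRD ⟨x, mem_inter.2 ⟨hxR, hx⟩⟩⟩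
      by_cases hv : ∃ v, (N v ∩ D).Nonempty ∧ (N v ∩ (T ∩ S)).Nonempty
      · right
        obtain ⟨v, ⟨d, hd⟩, ⟨w, hw⟩⟩ := hv
        simp only [hS, mem_inter, mem_biUnion, id] at hw hd
        obtain ⟨hwv, hwT, K, hK, hwK⟩ := hw
        refine ⟨K, hK, ?_⟩
        have hKc := comps_closed (hKO K hK).1
        have hdK : d ∈ K := hKc.2 v ⟨w, mem_inter.2 ⟨hwv, hwK⟩⟩ (mem_inter.2 ⟨hd.1, hDU hd.2⟩)
        have hcl : Closed N D (D ∩ K) := by
          refine ⟨inter_subset_left, fun u hu => ?_⟩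
          have h1 := hKc.2 u (hu.mono (inter_subset_inter_left inter_subset_right))
          intro y hy
          rw [mem_inter] at hy
          exact mem_inter.2 ⟨hy.2, h1 (mem_inter.2 ⟨hy.1, hDU hy.2⟩)⟩
        have hDK : D ∩ K = D := hD'.2.1.2 _ ⟨d, mem_inter.2 ⟨hd.2, hdK⟩⟩ hcl
        have hDK' : D ⊆ K := by rw [← hDK]; exact inter_subset_right
        rw [mem_bc]
        refine ⟨⟨fun x hx => ?_, fun u hu => ?_⟩, hD'.2⟩
        · rw [mem_sdiff]
          refine ⟨hDK' hx, fun hx' => ?_⟩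
          exact (mem_sdiff.1 (hD'.1.1 hx)).2 (mem_inter.1 hx').1
        · intro y hy
          rw [mem_inter, mem_sdiff] at hy
          refine hD'.1.2 u hu (mem_inter.2 ⟨hy.1, mem_sdiff.2 ⟨?_, fun hyT => ?_⟩⟩)
          · exact (mem_sdiff.1 (comps_subset (hKO K hK).1 hy.2.1)).1
          · exact hy.2.2 (mem_inter.2 ⟨hyT, hy.2.1⟩)
      · left
        refine ⟨hD, mem_bc.2 ⟨⟨fun x hx => ?_, fun u hu => ?_⟩, hD'.2⟩⟩
        · have := mem_sdiff.1 (hD'.1.1 hx)
          exact mem_sdiff.2 ⟨this.1, fun h => this.2 (mem_sdiff.1 h).1⟩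
        · intro y hy
          rw [mem_inter, mem_sdiff] at hy
          by_cases hyT : y ∈ T
          · exfalso
            apply hv
            refine ⟨u, hu, y, mem_inter.2 ⟨hy.1, mem_inter.2 ⟨hyT, ?_⟩⟩⟩
            by_contra hyS
            exact hy.2.2 (mem_sdiff.2 ⟨hyT, hyS⟩)
          · exact hD'.1.2 u hu (mem_inter.2 ⟨hy.1, mem_sdiff.2 ⟨hy.2.1, hyT⟩⟩)
    have hdisj : Disjoint (bc N Hv U T ∩ bc N Hv U (T \ S)) (hitc N Hv U R T (T \ S)) := by
      rw [disjoint_left]
      intro C hC hC'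
      unfold hitc at hC'
      simp only [Finset.mem_filter] at hC'
      have h1 := (mem_bc.1 (mem_inter.1 hC).1).1.1
      obtain ⟨x, hx⟩ := hC'.2.1
      rw [mem_inter] at hx
      exact (mem_sdiff.1 (h1 hx.2)).2 hx.1
    have hsub2 : (bc N Hv U T ∩ bc N Hv U (T \ S)) ∪ hitc N Hv U R T (T \ S)
        ⊆ bc N Hv U (T \ S) := by
      refine union_subset inter_subset_right ?_
      intro C hC
      unfold hitc at hC
      simp only [Finset.mem_filter] at hC
      obtain ⟨hC1, hC2, hC3⟩ := hC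
      have hC1' := mem_bc.1 hC1
      have hCK : C ∈ KO N Hv U R T := by
        unfold KO
        exact mem_filter.2 ⟨bc_subset_comps hC1, hC2, Or.inl hC1'.2⟩
      refine mem_bc.2 ⟨⟨fun x hx => ?_, fun u hu => ?_⟩, hC1'.2⟩
      · rw [mem_sdiff]
        refine ⟨(mem_sdiff.1 (hC1'.1.1 hx)).1, fun h => ?_⟩
        refine (mem_sdiff.1 h).2 ?_
        simp only [hS, mem_biUnion, id]
        exact ⟨C, hCK, hx⟩
      · intro y hy
        rw [mem_inter, mem_sdiff] at hy
        by_contra hyC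
        apply hy.2.2
        apply hC3
        unfold tok
        rw [mem_sdiff, mem_biUnion]
        exact ⟨⟨u, mem_alive.2 hu, mem_inter.2 ⟨hy.1, hy.2.1⟩⟩, hyC⟩
    have h1 := card_le_card hsub
    have h2 := card_union_le ((bc N Hv U T ∩ bc N Hv U (T \ S)) ∪
        (KO N Hv U R T).biUnion fun K => bc N Hv K (T ∩ K)) (HH N Hv U R T)
    have h3 := card_union_le (bc N Hv U T ∩ bc N Hv U (T \ S))
        ((KO N Hv U R T).biUnion fun K => bc N Hv K (T ∩ K))
    have h4 : ((KO N Hv U R T).biUnion fun K => bc N Hv K (T ∩ K)).card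
        ≤ ∑ K ∈ KO N Hv U R T, (bc N Hv K (T ∩ K)).card := card_biUnion_le
    have h5 := card_le_card hsub2
    rw [card_union_of_disjoint hdisj] at h5
    omega
  have hsum : ∑ K ∈ KO N Hv U R T, sf N Hv K (T ∩ K) =
      -2 * ((∑ K ∈ KO N Hv U R T, (T ∩ K).card : ℕ) : ℤ)
      + ((∑ K ∈ KO N Hv U R T, (J N K (T ∩ K)).card : ℕ) : ℤ)
      + 2 * ((∑ K ∈ KO N Hv U R T, (bc N Hv K (T ∩ K)).card : ℕ) : ℤ) := by
    unfold sf ph
    push_cast
    rw [mul_sum, mul_sum, ← sum_add_distrib, ← sum_add_distrib]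
    exact sum_congr rfl fun K _ => by ring
  rw [hsum, hTt]
  unfold sf ph
  zify at hcard hJ hb
  push_cast
  linarith

end Pool.Agent.TDG.H29
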