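import Pool.Agent.Helper29_TDG.ASM
import Pool.Agent.Helper29_TDG.CIIa
import Pool.Agent.Helper29_TDG.EL1
import Pool.Agent.Helper11_TDG.Bd
import Pool.Agent.Helper11_TDG.Uh
import Pool.Agent.Helper67_TDG.Ci
import Pool.Agent.Helper67_TDG.Su
import Pool.Agent.Helper66_TDG.CIIb
import Pool.Agent.Helper66_TDG.Cl
import Pool.Agent.Helper88_TDG.Drop
import Pool.Agent.Helper41_TDG.Dx
import Pool.Agent.Helper41_TDG.Fa
import Pool.Agent.Helper20_TDG.Mo
import Pool.Agent.Helper75_TDG.EL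
import Pool.Agent.Helper75_TDG.Exa
import Pool.Agent.Helper47_TDG.Xe
import Pool.Agent.Helper53_TDG.Ad
import Pool.Agent.Helper71_TDG.LpBfNb
import Pool.Agent.Helper65_TDG.Ela
import Pool.Agent.Helper59_TDG.EL2

/-!
# The main statement on positions from the last modules
-/

set_option autoImplicit false

namespace Pool.Agent.TDG.H29

open Pool.Agent.TDG

theorem mainStmt_of (h3 : EL3Stmt) (h4 : EL4Stmt) (hR0 : R0Stmt) : MainStmt := by
  have hBF : BFStmt := H71.bf
  have hEL : ELStmt := H75.el el1 H59.el2 h3 h4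
  have hela : ELAStmt := H65.ela hEL
  have hMO : MOStmt := H20.mo hEL
  have hUH : UHStmt := H11.uh hBF
  have hSU : SUStmt := H67.su hUH
  have hDR : DRStmt := H88.dr hela
  have hDZ : DZStmt := H88.dz hela
  have hXE : XEStmt := H47.xe hMO hDZ
  have hCL : CLStmt := H66.cl
  have hFA : FAStmt := H41.fa hela
  have hDX : DXStmt := H41.dx hMO
  exact asm (H11.bd hBF) H53.nn (H20.sc hMO H53.ad) H53.ad H75.exa hela
    (H67.ci hDR hUH hSU hXE hCL hFA) (ciia hDX hDR hUH hSU hXE hCL)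
    (H66.cIIb hDR hUH hSU hXE hCL) hR0

end Pool.Agent.TDG.H29
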